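import Pool.Agent.H84.Skl

namespace Pool.Agent.Results.MP_fcea8d_gt.Yes

open Set Pool.Agent.H84.SklDefs

theorem result (K Γ : Type) [TopologicalSpace K] [CompactSpace K] [T2Space K] [PartialOrder Γ]
    (r : Γ → K → K) (h : Skeleton r) :
    ∃ (𝓕 : Set (Set K)) (ρ : 𝓕 → K → K), (∀ F ∈ 𝓕, IsCompact F) ∧
      (∀ F : ℕ → 𝓕, Monotone F → ∃ G : 𝓕, G.1 = closure (⋃ n, (F n).1) ∧ IsLUB (range F) G) ∧
      (∀ F : 𝓕, range (ρ F) = F) ∧ Skeleton ρ ∧ ⋃ F, range (ρ F) = ⋃ s, range (r s) :=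
  Pool.Agent.H84.Skl.main h

end Pool.Agent.Results.MP_fcea8d_gt.Yes
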